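import Mathlib
import Pool.Agent.Lib.MP_14ee70_nt.TY.C.LamEx
import Pool.Agent.Lib.MP_14ee70_nt.TY.P.Short
import Pool.Agent.Lib.MP_14ee70_nt.TY.P.Count
import Pool.Agent.Lib.MP_14ee70_nt.TY.P.Sq

/-!
# Project TY, file Fin/Block: the theorem for a dyadic block

`F2a` gives `CT, C'` with `F2aProp CT C'`; `lam_exists` gives `c0`, `C1`; `short_bound CT C' C1`; `Z0_bounds`, `QQ_pos` (the instance
`NeZero (QQ N L)`), `count_exc`, `one_window`, `hasSq_of_smooth`; take the minimum of the `c0` and the maximum of the `C`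
(`RegF.mono`).  `LamData` from `lam_exists` (`B, r, Lam`), `l = k - r`.
-/

namespace MP14ee70.TY

open Finset

theorem block : ∃ c0 : ℝ, 0 < c0 ∧ ∃ C : ℝ, ∀ (N k : ℕ) (L y η : ℝ), RegF C N k L y η →
    η * (k : ℝ) ^ 2 ≤ c0 * Real.log y →
    ∃ X : Finset ℕ, (X.card : ℝ) ≤ N / L ^ 5 ∧
      ∀ n : ℕ, N < n → n ≤ 2 * N → n ∉ X → HasSq n (tt y) := by
  obtain ⟨CT, hCT, C', hF⟩ := F2a
  have hF' : F2aProp CT C' := hF
  obtain ⟨c1, hc1, C1, hlam⟩ := lam_exists CT C' hCT hF'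
  obtain ⟨c2, hc2, C2, hshort⟩ := short_bound CT C' C1 hCT hF'
  obtain ⟨C3, hZ0⟩ := Z0_bounds
  obtain ⟨C4, hQ⟩ := QQ_pos
  obtain ⟨C5, hexc⟩ := count_exc
  obtain ⟨C6, hwin⟩ := one_window
  set C : ℝ := max C1 (max C2 (max C3 (max C4 (max C5 C6)))) with hC
  have h1 : C1 ≤ C := le_max_left _ _
  have h2 : C2 ≤ C := (le_max_left _ _).trans (le_max_right _ _)
  have h3 : C3 ≤ C := ((le_max_left _ _).trans (le_max_right _ _)).trans (le_max_right _ _)
  have h4 : C4 ≤ C := (((le_max_left _ _).trans (le_max_right _ _)).trans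
    (le_max_right _ _)).trans (le_max_right _ _)
  have h5 : C5 ≤ C := ((((le_max_left _ _).trans (le_max_right _ _)).trans
    (le_max_right _ _)).trans (le_max_right _ _)).trans (le_max_right _ _)
  have h6 : C6 ≤ C := ((((le_max_right _ _).trans (le_max_right _ _)).trans
    (le_max_right _ _)).trans (le_max_right _ _)).trans (le_max_right _ _)
  refine ⟨min c1 c2, lt_min hc1 hc2, C, ?_⟩
  intro N k L y η hR hη
  have : NeZero (QQ N L) := ⟨(hQ N k L y η (hR.mono h4)).ne'⟩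
  have hlogy : 0 ≤ Real.log y :=
    le_trans (mul_nonneg hR.η_pos.le (sq_nonneg _)) hR.ηk
  have hη1 : η * (k : ℝ) ^ 2 ≤ c1 * Real.log y :=
    hη.trans (mul_le_mul_of_nonneg_right (min_le_left _ _) hlogy)
  have hη2 : η * (k : ℝ) ^ 2 ≤ c2 * Real.log y :=
    hη.trans (mul_le_mul_of_nonneg_right (min_le_right _ _) hlogy)
  obtain ⟨hA, B, r, Lam, hB1, hB2, hr, hdom, hbad⟩ := hlam N k L y η (hR.mono h1) hη1
  have hD : LamData N k L y η hA B r Lam := ⟨hB1, hB2, hr, hdom⟩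
  have hZ : 0 < Z0 L y := lt_of_lt_of_le one_pos (hZ0 N k L y η (hR.mono h3)).1
  have hrk : r ≤ k := by omega
  obtain ⟨E, hE, hEu⟩ := hshort N k L y η (hR.mono h2) hη2 hZ hA B r Lam hD hbad (k - r)
    (Nat.sub_add_cancel hrk)
  obtain ⟨X, hX, hXn⟩ := hexc N k L y η (hR.mono h5) E hE
  refine ⟨X, hX, ?_⟩
  intro n hn1 hn2 hnX
  obtain ⟨u, huE, hu1, hu2, hu3, hu4⟩ := hXn n hn1 hn2 hnX
  have hf := hEu u hu1 hu2 huE
  have hcard := hwin N k L y η (hR.mono h6) hZ hA B r Lam hD (k - r)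
    (Nat.sub_add_cancel hrk) n u hn1 hn2 hu3 hu4 hf
  exact hasSq_of_smooth n (tt y) ⌊y⌋₊ hcard

end MP14ee70.TY
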