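import Mathlib

/-!
# Project TY, file Fin/Dyadic: from dyadic blocks to all `n ≤ N`

`N_i = ⌈N / 2^(i+1)⌉`: the blocks `(N_i, 2 N_i]`, `i < m`, cover `(N_m, N]`; take the least `m` with
`N_m ≤ 2 √N`.  For `i < m`: `N_i ≥ √N`, `log N_i ≥ (log N)/2`, so at most
`N_i · 32/(log N)^5 ≤ (N/2^(i+1) + 1) 32/(log N)^5` bad `n` in the block.  Total
`≤ 2 √N + 32 (N + log N + 2)/(log N)^5 ≤ N/(2 (log N)^4)` for large `N`.

(The proof below is a strong induction: `F N ≤ N1 + 4 N / (log N)^5` for the number `F N` of bad `n ≤ N`.)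
-/

namespace MP14ee70.TY

open Finset Filter

/-- the inductive step, numerically -/
theorem dyadic_step (N M : ℕ) (hN : 70 ≤ Real.log N) (h1 : N ≤ 2 * M) (h2 : 2 * M ≤ N + 1) :
    5 * ((M : ℝ) / Real.log M ^ 5) ≤ 4 * N / Real.log N ^ 5 := by
  have hN0 : (0 : ℝ) < N := by
    rcases Nat.eq_zero_or_pos N with h | h
    · rw [h] at hN
      norm_num at hN
    · exact_mod_cast h
  have hN50 : (50 : ℝ) ≤ N := by
    have h3 := Real.log_le_sub_one_of_pos hN0
    linarith
  have h1' : (N : ℝ) ≤ 2 * M := by exact_mod_cast h1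
  have h2' : 2 * (M : ℝ) ≤ N + 1 := by exact_mod_cast h2
  have hM0 : (0 : ℝ) < M := by linarith
  have hM1 : (M : ℝ) ≤ 51 / 100 * N := by linarith
  have hlogM : 99 / 100 * Real.log N ≤ Real.log M := by
    have h3 : Real.log (N / 2) ≤ Real.log M := Real.log_le_log (by positivity) (by linarith)
    rw [Real.log_div hN0.ne' two_ne_zero] at h3
    have h4 := Real.log_two_lt_d9
    linarith
  have hl0 : 0 < Real.log N := by linarith
  have h5 : 95 / 100 * Real.log N ^ 5 ≤ Real.log M ^ 5 := by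
    calc 95 / 100 * Real.log N ^ 5 ≤ (99 / 100) ^ 5 * Real.log N ^ 5 := by
          refine mul_le_mul_of_nonneg_right ?_ (by positivity)
          norm_num
      _ = (99 / 100 * Real.log N) ^ 5 := by ring
      _ ≤ Real.log M ^ 5 := pow_le_pow_left₀ (by positivity) hlogM 5
  have h6 : 0 < Real.log N ^ 5 := by positivity
  calc 5 * ((M : ℝ) / Real.log M ^ 5)
      ≤ 5 * ((51 / 100 * N) / (95 / 100 * Real.log N ^ 5)) := by
        refine mul_le_mul_of_nonneg_left ?_ (by norm_num)
        exact div_le_div₀ (by positivity) hM1 (by positivity) h5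
    _ ≤ 4 * N / Real.log N ^ 5 := by
        rw [← mul_div_assoc, div_le_div_iff₀ (by positivity) h6]
        nlinarith [mul_pos hN0 h6]

open Classical in
theorem dyadic (bad : ℕ → Prop)
    (h : ∀ᶠ N : ℕ in atTop, ∃ X : Finset ℕ, (X.card : ℝ) ≤ N / Real.log N ^ 5 ∧
      ∀ n : ℕ, N < n → n ≤ 2 * N → n ∉ X → ¬ bad n) :
    ∀ᶠ N : ℕ in atTop,
      (((Finset.Icc 1 N).filter bad).card : ℝ) ≤ N / (2 * Real.log N ^ 4) := by
  obtain ⟨N0, hN0⟩ := eventually_atTop.1 h
  have hlogN : Tendsto (fun N : ℕ => Real.log N) atTop atTop :=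
    Real.tendsto_log_atTop.comp tendsto_natCast_atTop_atTop
  obtain ⟨N2, hN2⟩ := eventually_atTop.1 (hlogN.eventually (eventually_ge_atTop (70 : ℝ)))
  set N1 : ℕ := max (2 * N0) (max N2 2) with hN1
  have hN1a : 2 * N0 ≤ N1 := le_max_left _ _
  have hN1b : N2 ≤ N1 := (le_max_left _ _).trans (le_max_right _ _)
  have hN1c : 2 ≤ N1 := (le_max_right _ _).trans (le_max_right _ _)
  have key : ∀ N : ℕ, (((Finset.Icc 1 N).filter bad).card : ℝ) ≤
      N1 + 4 * N / Real.log N ^ 5 := by
    intro N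
    induction N using Nat.strong_induction_on with
    | _ N ih =>
      have hnn : 0 ≤ 4 * (N : ℝ) / Real.log N ^ 5 :=
        div_nonneg (by positivity) (pow_nonneg (Real.log_natCast_nonneg N) 5)
      rcases lt_or_ge N N1 with hlt | hge
      · have h1 : ((Finset.Icc 1 N).filter bad).card ≤ N :=
          (Finset.card_filter_le _ _).trans_eq (by simp)
        have h2 : (((Finset.Icc 1 N).filter bad).card : ℝ) ≤ N1 := by
          exact_mod_cast h1.trans hlt.le
        linarith
      · have hM1 : N ≤ 2 * ((N + 1) / 2) := by omega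
        have hM2 : 2 * ((N + 1) / 2) ≤ N + 1 := by omega
        have hM3 : (N + 1) / 2 < N := by omega
        have hM4 : N0 ≤ (N + 1) / 2 := by omega
        obtain ⟨X, hX, hXb⟩ := hN0 _ hM4
        have hsub : (Finset.Icc 1 N).filter bad ⊆
            ((Finset.Icc 1 ((N + 1) / 2)).filter bad) ∪ X := by
          intro n hn
          rw [Finset.mem_filter, Finset.mem_Icc] at hn
          rw [Finset.mem_union, Finset.mem_filter, Finset.mem_Icc]
          by_cases h3 : n ≤ (N + 1) / 2
          · exact Or.inl ⟨⟨hn.1.1, h3⟩, hn.2⟩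
          · right
            by_contra h4
            exact hXb n (not_le.1 h3) (hn.1.2.trans hM1) h4 hn.2
        have h5 : (((Finset.Icc 1 N).filter bad).card : ℝ) ≤
            (((Finset.Icc 1 ((N + 1) / 2)).filter bad).card : ℝ) + X.card := by
          exact_mod_cast (Finset.card_le_card hsub).trans (Finset.card_union_le _ _)
        have h6 := ih _ hM3
        have h7 := dyadic_step N ((N + 1) / 2) (hN2 N (hN1b.trans hge)) hM1 hM2
        have h8 : 4 * (((N + 1) / 2 : ℕ) : ℝ) / Real.log (((N + 1) / 2 : ℕ) : ℝ) ^ 5 =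
            4 * ((((N + 1) / 2 : ℕ) : ℝ) / Real.log (((N + 1) / 2 : ℕ) : ℝ) ^ 5) := by
          rw [mul_div_assoc]
        rw [h8] at h6
        linarith
  have hsmall := (Real.isLittleO_pow_log_id_atTop (n := 4)).bound
    (show (0 : ℝ) < 1 / (4 * ((N1 : ℝ) + 1)) by positivity)
  filter_upwards [eventually_ge_atTop N2, eventually_ge_atTop 1,
    tendsto_natCast_atTop_atTop.eventually hsmall] with N h1 h2 h3
  have hl : 70 ≤ Real.log N := hN2 N h1
  have hl0 : 0 < Real.log N := by linarith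
  have hN0' : (0 : ℝ) < N := by exact_mod_cast h2
  have h4 : 0 < Real.log N ^ 4 := by positivity
  rw [Real.norm_of_nonneg h4.le, id, Real.norm_of_nonneg hN0'.le] at h3
  refine (key N).trans ?_
  have h5 : 4 * (N : ℝ) / Real.log N ^ 5 ≤ N / (4 * Real.log N ^ 4) := by
    rw [div_le_div_iff₀ (by positivity) (by positivity)]
    nlinarith [mul_pos hN0' h4]
  have h6 : (N1 : ℝ) ≤ N / (4 * Real.log N ^ 4) := by
    rw [le_div_iff₀ (by positivity)]
    have h7 : (0 : ℝ) ≤ N1 := by positivity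
    have h8 : (4 * ((N1 : ℝ) + 1)) * Real.log N ^ 4 ≤ N := by
      calc (4 * ((N1 : ℝ) + 1)) * Real.log N ^ 4
          ≤ (4 * ((N1 : ℝ) + 1)) * (1 / (4 * ((N1 : ℝ) + 1)) * N) :=
            mul_le_mul_of_nonneg_left h3 (by positivity)
        _ = N := by field_simp
    nlinarith
  have h9 : (N : ℝ) / (2 * Real.log N ^ 4) = N / (4 * Real.log N ^ 4) + N / (4 * Real.log N ^ 4) := by
    field_simp
    ring
  rw [h9]
  linarith

end MP14ee70.TY
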