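import Mathlib
import Pool.Agent.Lib.MP_14ee70_nt.TY.Defs

/-!
# Project TY, file Fin/Param: the choice of the parameters

`L = log N`, `k = ⌊L^(1/2) (log L)^(-15/4)⌋`, `y = exp (L/(k + 5/8))`, `η = c1 log y / k^2`, `c1 = min c0 1`.
`k η = c1 L/(k (k + 5/8)) ≥ c1 L/(2 k^2) ≥ (c1/2) (log L)^(15/2) ≥ A (log L)^7`; `k ≥ L^(9/20)`; `k^2 ≤ L`;
`8 log y = 8 L/(k + 5/8) ≤ 16 L^(1/2) (log L)^(15/4) ≤ L^(1/2) (log L)^4`.
-/

namespace MP14ee70.TY

open Finset Filter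

/-- The choice of the parameters, with `L = b ^ 20` and `log L = a ^ 4`. -/
theorem params_aux (c0 A : ℝ) (hc0 : 0 < c0) (hA : 1 ≤ A) (N : ℕ) (a b : ℝ)
    (hL : Real.log N = b ^ 20) (hlog : Real.log (Real.log N) = a ^ 4) (ha : 16 ≤ a)
    (hab : 2 * a ^ 15 ≤ b) (hAa : A ≤ a ^ 4) (hAc : 2 * A ≤ min c0 1 * a ^ 2) :
    ∃ (k : ℕ) (y η : ℝ),
    Reg A N k (Real.log N) y η ∧ η * (k : ℝ) ^ 2 ≤ c0 * Real.log y ∧
      y ^ 8 ≤ Real.exp (Real.sqrt (Real.log N) * Real.log (Real.log N) ^ 4) := by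
  have ha1 : (1 : ℝ) ≤ a := by linarith
  have ha0 : (0 : ℝ) < a := by linarith
  have ha15 : (1 : ℝ) ≤ a ^ 15 := one_le_pow₀ ha1
  have hb1 : (1 : ℝ) ≤ b := by linarith
  have hb0 : (0 : ℝ) < b := by linarith
  have hb9 : (1 : ℝ) ≤ b ^ 9 := one_le_pow₀ hb1
  have hc1 : 0 < min c0 1 := lt_min hc0 zero_lt_one
  have hL0 : (0 : ℝ) < b ^ 20 := by positivity
  set u : ℝ := b ^ 10 / a ^ 15 with hu
  have hu0 : 0 < u := by positivity
  have hu_le : u ≤ b ^ 10 := div_le_self (by positivity) ha15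
  have hu_ge : 2 * b ^ 9 ≤ u := by
    rw [hu, le_div_iff₀ (by positivity)]
    calc 2 * b ^ 9 * a ^ 15 = b ^ 9 * (2 * a ^ 15) := by ring
      _ ≤ b ^ 9 * b := mul_le_mul_of_nonneg_left hab (by positivity)
      _ = b ^ 10 := by ring
  have hu2 : 2 ≤ u := by linarith
  have hk1 : ((⌊u⌋₊ : ℕ) : ℝ) ≤ u := Nat.floor_le hu0.le
  have hk2 : u < ((⌊u⌋₊ : ℕ) : ℝ) + 1 := Nat.lt_floor_add_one u
  set k : ℕ := ⌊u⌋₊ with hk
  have hk3 : u / 2 ≤ (k : ℝ) := by linarith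
  have hk4 : (1 : ℝ) ≤ (k : ℝ) := by linarith
  have hk0 : (0 : ℝ) < (k : ℝ) := by linarith
  have hk5 : (0 : ℝ) < (k : ℝ) + 5 / 8 := by linarith
  have hlogy : Real.log (Real.exp (Real.log N / (k + 5 / 8))) = b ^ 20 / (k + 5 / 8) := by
    rw [Real.log_exp, hL]
  have hly0 : 0 < b ^ 20 / ((k : ℝ) + 5 / 8) := by positivity
  refine ⟨k, Real.exp (Real.log N / (k + 5 / 8)),
    min c0 1 * Real.log (Real.exp (Real.log N / (k + 5 / 8))) / (k : ℝ) ^ 2, ?_, ?_, ?_⟩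
  · refine ⟨hA, rfl, by rw [hlog]; exact hAa, ?_, ?_, rfl, ?_, ?_⟩
    · rw [hL]
      have h1 : (b ^ 20) ^ (9 / 20 : ℝ) = b ^ 9 := by
        rw [← Real.rpow_natCast b 20, ← Real.rpow_mul hb0.le, ← Real.rpow_natCast b 9]
        norm_num
      rw [h1]
      linarith
    · rw [hL]
      calc (k : ℝ) ^ 2 ≤ (b ^ 10) ^ 2 := pow_le_pow_left₀ hk0.le (hk1.trans hu_le) 2
        _ = b ^ 20 := by ring
    · rw [hlogy, hlog]
      have h1 : (k : ℝ) * (min c0 1 * (b ^ 20 / (k + 5 / 8)) / (k : ℝ) ^ 2) =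
          min c0 1 * b ^ 20 / (k * (k + 5 / 8)) := by
        field_simp
      rw [h1, le_div_iff₀ (by positivity)]
      have h2 : (k : ℝ) * (k + 5 / 8) ≤ 2 * u ^ 2 := by nlinarith
      have h3 : u ^ 2 = b ^ 20 / a ^ 30 := by
        rw [hu, div_pow]
        ring_nf
      have hA0 : 0 ≤ A * (a ^ 4) ^ 7 := by positivity
      calc A * (a ^ 4) ^ 7 * ((k : ℝ) * (k + 5 / 8)) ≤ A * (a ^ 4) ^ 7 * (2 * u ^ 2) :=
            mul_le_mul_of_nonneg_left h2 hA0
        _ = 2 * A * (b ^ 20 / a ^ 2) := by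
            rw [h3]
            field_simp
        _ ≤ (min c0 1 * a ^ 2) * (b ^ 20 / a ^ 2) :=
            mul_le_mul_of_nonneg_right hAc (by positivity)
        _ = min c0 1 * b ^ 20 := by
            field_simp
    · rw [hlogy, div_mul_cancel₀ _ (by positivity)]
      calc min c0 1 * (b ^ 20 / (k + 5 / 8)) ≤ 1 * (b ^ 20 / (k + 5 / 8)) :=
            mul_le_mul_of_nonneg_right (min_le_right _ _) hly0.le
        _ = b ^ 20 / (k + 5 / 8) := one_mul _
  · rw [hlogy, div_mul_cancel₀ _ (by positivity)]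
    exact mul_le_mul_of_nonneg_right (min_le_left _ _) hly0.le
  · rw [← Real.exp_nat_mul, Real.exp_le_exp, hlog, hL]
    have h1 : Real.sqrt (b ^ 20) = b ^ 10 := by
      rw [show b ^ 20 = (b ^ 10) ^ 2 by ring, Real.sqrt_sq (by positivity)]
    rw [h1]
    have h2 : u / 2 ≤ (k : ℝ) + 5 / 8 := by linarith
    calc ((8 : ℕ) : ℝ) * (b ^ 20 / (k + 5 / 8)) ≤ ((8 : ℕ) : ℝ) * (b ^ 20 / (u / 2)) :=
          mul_le_mul_of_nonneg_left
            (div_le_div_of_nonneg_left hL0.le (by positivity) h2) (by positivity)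
      _ = b ^ 10 * (16 * a ^ 15) := by
          rw [hu]
          push_cast
          field_simp
          ring
      _ ≤ b ^ 10 * (a ^ 4) ^ 4 := by
          refine mul_le_mul_of_nonneg_left ?_ (by positivity)
          calc 16 * a ^ 15 ≤ a * a ^ 15 := mul_le_mul_of_nonneg_right ha (by positivity)
            _ = (a ^ 4) ^ 4 := by ring

theorem params (c0 A : ℝ) (hc0 : 0 < c0) (hA : 1 ≤ A) :
    ∀ᶠ N : ℕ in atTop, ∃ (k : ℕ) (y η : ℝ),
    Reg A N k (Real.log N) y η ∧ η * (k : ℝ) ^ 2 ≤ c0 * Real.log y ∧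
      y ^ 8 ≤ Real.exp (Real.sqrt (Real.log N) * Real.log (Real.log N) ^ 4) := by
  have hc1 : 0 < min c0 1 := lt_min hc0 zero_lt_one
  have hlogN : Tendsto (fun N : ℕ => Real.log N) atTop atTop :=
    Real.tendsto_log_atTop.comp tendsto_natCast_atTop_atTop
  have hll : Tendsto (fun N : ℕ => Real.log (Real.log N)) atTop atTop :=
    Real.tendsto_log_atTop.comp hlogN
  have ha : Tendsto (fun N : ℕ => Real.log (Real.log N) ^ (1 / 4 : ℝ)) atTop atTop :=
    (tendsto_rpow_atTop (by norm_num)).comp hll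
  have hlittle := (isLittleO_log_rpow_rpow_atTop (s := 1 / 20) (15 / 4 : ℝ) (by norm_num)).bound
    (show (0 : ℝ) < 1 / 2 by norm_num)
  filter_upwards [hlogN.eventually (eventually_ge_atTop 1),
    hll.eventually (eventually_ge_atTop (max 1 A)),
    ha.eventually (eventually_ge_atTop (max 16 (2 * A / min c0 1))),
    hlogN.eventually hlittle] with N h1 h2 h3 h4
  have hl1 : 1 ≤ Real.log (Real.log N) := (le_max_left _ _).trans h2
  have hl0 : 0 ≤ Real.log (Real.log N) := by linarith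
  have hL0 : 0 ≤ Real.log N := by linarith
  have h16 : 16 ≤ Real.log (Real.log N) ^ (1 / 4 : ℝ) := (le_max_left _ _).trans h3
  have hA2 : 2 * A / min c0 1 ≤ Real.log (Real.log N) ^ (1 / 4 : ℝ) :=
    (le_max_right _ _).trans h3
  refine params_aux c0 A hc0 hA N (Real.log (Real.log N) ^ (1 / 4 : ℝ))
    (Real.log N ^ (1 / 20 : ℝ)) ?_ ?_ h16 ?_ ?_ ?_
  · rw [← Real.rpow_natCast, ← Real.rpow_mul hL0]
    norm_num
  · rw [← Real.rpow_natCast, ← Real.rpow_mul hl0]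
    norm_num
  · have h5 : (Real.log (Real.log N) ^ (1 / 4 : ℝ)) ^ 15 =
        Real.log (Real.log N) ^ (15 / 4 : ℝ) := by
      rw [← Real.rpow_natCast, ← Real.rpow_mul hl0]
      norm_num
    rw [h5]
    rw [Real.norm_of_nonneg (Real.rpow_nonneg hl0 _),
      Real.norm_of_nonneg (Real.rpow_nonneg hL0 _)] at h4
    linarith
  · have h6 : (Real.log (Real.log N) ^ (1 / 4 : ℝ)) ^ 4 = Real.log (Real.log N) := by
      rw [← Real.rpow_natCast, ← Real.rpow_mul hl0]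
      norm_num
    rw [h6]
    exact (le_max_right _ _).trans h2
  · rw [div_le_iff₀ hc1] at hA2
    have h7 : (0 : ℝ) < Real.log (Real.log N) ^ (1 / 4 : ℝ) := by linarith
    nlinarith [mul_pos hc1 h7]

end MP14ee70.TY
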