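import Mathlib
import Pool.Agent.Lib.MP_14ee70_nt.TY.Fin.Block
import Pool.Agent.Lib.MP_14ee70_nt.TY.Fin.Param
import Pool.Agent.Lib.MP_14ee70_nt.TY.Fin.Dyadic

/-!
# Project TY, file Fin/Upper: the upper bound for almost all `n`

`block` and `reg_facts` and `params`: for large `N` and all `n ∈ (N, 2N]` outside a set of at most `N/(log N)^5` numbers
`HasSq n t` with `t = ⌊y^8⌋ ≤ exp (√(log N) (log log N)^4) ≤ exp (√(log n) (log log n)^4)` (monotone for `N ≥ 3`).
Then `dyadic`.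
-/

namespace MP14ee70.TY

open Finset Filter

/-- The upper bound `exp (√(log n) (log log n)^4)`. -/
noncomputable def upB (n : ℕ) : ℝ := Real.exp (Real.sqrt (Real.log n) * Real.log (Real.log n) ^ 4)

open Classical in
theorem upper_almost_all : ∀ᶠ N : ℕ in atTop,
    (((Finset.Icc 1 N).filter fun n => ¬ ∃ t : ℕ, (t : ℝ) ≤ upB n ∧ HasSq n t).card : ℝ)
      ≤ N / (2 * Real.log N ^ 4) := by
  obtain ⟨c0, hc0, C, hblock⟩ := block
  obtain ⟨A, hA1, hA⟩ := reg_facts' C
  have key := dyadic (fun n => ¬ ∃ t : ℕ, (t : ℝ) ≤ upB n ∧ HasSq n t) ?_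
  · filter_upwards [key] with N hN
    refine le_trans (le_of_eq ?_) hN
    congr!
  filter_upwards [params c0 A hc0 hA1, eventually_ge_atTop 3] with N hN hN3
  obtain ⟨k, y, η, hReg, hη, hy⟩ := hN
  obtain ⟨X, hX, hXn⟩ := hblock N k (Real.log N) y η (hA N k (Real.log N) y η hReg) hη
  refine ⟨X, hX, ?_⟩
  intro n hn1 hn2 hnX hcon
  apply hcon
  refine ⟨tt y, ?_, hXn n hn1 hn2 hnX⟩
  have hy0 : 0 < y := (hA N k (Real.log N) y η hReg).ypos
  have h1 : (tt y : ℝ) ≤ y ^ 8 := Nat.floor_le (by positivity)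
  refine h1.trans (hy.trans ?_)
  unfold upB
  apply Real.exp_le_exp.2
  have h3 : (3 : ℝ) ≤ N := by exact_mod_cast hN3
  have hN0 : (0 : ℝ) < N := by linarith
  have hNn : (N : ℝ) ≤ n := by exact_mod_cast hn1.le
  have hlog1 : 1 ≤ Real.log N := by
    rw [Real.le_log_iff_exp_le hN0]
    exact (Real.exp_one_lt_d9.le.trans (by norm_num)).trans h3
  have hlog2 : Real.log N ≤ Real.log n := Real.log_le_log hN0 hNn
  have hll0 : 0 ≤ Real.log (Real.log N) := Real.log_nonneg hlog1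
  have hll1 : Real.log (Real.log N) ≤ Real.log (Real.log n) :=
    Real.log_le_log (by linarith) hlog2
  exact mul_le_mul (Real.sqrt_le_sqrt hlog2) (pow_le_pow_left₀ hll0 hll1 4) (by positivity)
    (Real.sqrt_nonneg _)

end MP14ee70.TY
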