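import Mathlib
import Pool.Agent.Lib.MP_14ee70_nt.TY.Fin.Upper
import Pool.Agent.Lib.MP_14ee70_nt.LowE

/-!
# Project TY, file Fin/Main: both bounds together

`MP14ee70Low.main_count` (`LowE.lean`) with some `δ > 0`, `δ < 1/(2c) - c` (exists since `2 c^2 < 1`), for the predicate 'there is
`t ≤ exp (c √(log n log log n))` with `HasSq n t`' (for `3 ≤ n ≤ N` it implies the bound with `N` instead of `n`; `n ≤ 2`: put
into the predicate the condition `3 ≤ n`, two more exceptions), exceptional set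
`≤ N exp (-δ √(log N log log N)) + 2 ≤ N/(2 (log N)^4)`; and `upper_almost_all`.
-/

namespace MP14ee70.TY

open Finset Filter

/-- The lower bound `exp (c √(log n log log n))`. -/
noncomputable def loB (c : ℝ) (n : ℕ) : ℝ :=
  Real.exp (c * Real.sqrt (Real.log n * Real.log (Real.log n)))

/-- the asymptotic comparison of the exceptional sets -/
theorem evt_both (δ : ℝ) (hδ : 0 < δ) : ∀ᶠ N : ℕ in atTop,
    (2 : ℝ) + N * Real.exp (-(δ * Real.sqrt (Real.log N * Real.log (Real.log N))))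
      ≤ N / (2 * Real.log N ^ 4) := by
  have hlogN : Tendsto (fun N : ℕ => Real.log (N : ℝ)) atTop atTop :=
    Real.tendsto_log_atTop.comp tendsto_natCast_atTop_atTop
  have h1 : ∀ᶠ L : ℝ in atTop, Real.log L ≤ (δ / 8) * L ^ (1 / 2 : ℝ) := by
    have := (isLittleO_log_rpow_atTop (show (0 : ℝ) < 1 / 2 by norm_num)).bound
      (show 0 < δ / 8 by positivity)
    filter_upwards [this, eventually_ge_atTop (1 : ℝ)] with L hL hL1
    rw [Real.norm_of_nonneg (Real.log_nonneg hL1),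
      Real.norm_of_nonneg (Real.rpow_nonneg (by linarith) _)] at hL
    exact hL
  have h2 : ∀ᶠ L : ℝ in atTop, 8 * L ^ 4 ≤ Real.exp L := by
    have := (Real.tendsto_pow_mul_exp_neg_atTop_nhds_zero 4).eventually
      (ge_mem_nhds (show (0 : ℝ) < 1 / 8 by norm_num))
    filter_upwards [this] with L hL
    rw [Real.exp_neg, ← div_eq_mul_inv, div_le_iff₀ (Real.exp_pos _)] at hL
    linarith
  have h3 : ∀ᶠ L : ℝ in atTop, Real.exp 1 ≤ L := eventually_ge_atTop _
  have h4 : ∀ᶠ L : ℝ in atTop, Real.log 4 ≤ (δ / 2) * L ^ (1 / 2 : ℝ) := by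
    have := (tendsto_rpow_atTop (show (0 : ℝ) < 1 / 2 by norm_num)).const_mul_atTop
      (show 0 < δ / 2 by positivity)
    exact this.eventually_ge_atTop _
  filter_upwards [hlogN.eventually h1, hlogN.eventually h2, hlogN.eventually h3,
    hlogN.eventually h4, eventually_ge_atTop 1] with N a1 a2 a3 a4 a5
  set L := Real.log (N : ℝ) with hL
  have hN0 : (0 : ℝ) < N := by exact_mod_cast a5
  have hL1 : 1 ≤ L := le_trans (Real.one_le_exp zero_le_one) a3
  have hL0 : 0 < L := by linarith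
  have hll : 1 ≤ Real.log L := by
    rw [← Real.log_exp 1]
    exact Real.log_le_log (Real.exp_pos _) a3
  have hexpL : Real.exp L = N := by rw [hL, Real.exp_log hN0]
  have hs : L ^ (1 / 2 : ℝ) ≤ Real.sqrt (L * Real.log L) := by
    rw [← Real.sqrt_eq_rpow]
    exact Real.sqrt_le_sqrt (by nlinarith)
  have hkey : Real.log (4 * L ^ 4) ≤ δ * Real.sqrt (L * Real.log L) := by
    rw [Real.log_mul (by norm_num) (by positivity), Real.log_pow]
    push_cast
    have := mul_le_mul_of_nonneg_left hs hδ.le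
    linarith
  have hexp : Real.exp (-(δ * Real.sqrt (L * Real.log L))) ≤ 1 / (4 * L ^ 4) := by
    rw [Real.exp_neg, one_div]
    refine inv_anti₀ (by positivity) ?_
    rw [← Real.log_le_iff_le_exp (by positivity)]
    exact hkey
  have e1 : (2 : ℝ) ≤ N / (4 * L ^ 4) := by
    rw [le_div_iff₀ (by positivity), ← hexpL]
    linarith
  have e2 : (N : ℝ) * Real.exp (-(δ * Real.sqrt (L * Real.log L))) ≤ N / (4 * L ^ 4) := by
    calc (N : ℝ) * Real.exp (-(δ * Real.sqrt (L * Real.log L))) ≤ N * (1 / (4 * L ^ 4)) :=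
          mul_le_mul_of_nonneg_left hexp hN0.le
      _ = N / (4 * L ^ 4) := by ring
  have e3 : (N : ℝ) / (2 * L ^ 4) = N / (4 * L ^ 4) + N / (4 * L ^ 4) := by
    field_simp
    ring
  rw [e3]
  exact add_le_add e1 e2

open Classical in
theorem both (c : ℝ) (hc : 0 < c) (hc2 : 2 * c ^ 2 < 1) : ∀ᶠ N : ℕ in atTop,
    (((Finset.Icc 1 N).filter fun n => (∃ t : ℕ, (t : ℝ) ≤ loB c n ∧ HasSq n t) ∨
      ¬ ∃ t : ℕ, (t : ℝ) ≤ upB n ∧ HasSq n t).card : ℝ) ≤ N / Real.log N ^ 4 := by
  have hpos : 0 < 1 / (2 * c) - c := by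
    rw [sub_pos, lt_div_iff₀ (by positivity)]
    nlinarith
  set δ : ℝ := (1 / (2 * c) - c) / 2 with hδdef
  have hδ : 0 < δ := by rw [hδdef]; linarith
  have hδ2 : δ < 1 / (2 * c) - c := by rw [hδdef]; linarith
  filter_upwards [MP14ee70Low.main_count c δ hc hδ2, upper_almost_all, evt_both δ hδ,
    eventually_ge_atTop 3] with N hlow hup hev hN3
  set bad : ℕ → Prop := fun n => 3 ≤ n ∧ n ≤ N ∧ ∃ t : ℕ, (t : ℝ) ≤ loB c n ∧ HasSq n t with hbad
  have hl := hlow bad (by
    rintro n ⟨hn3, hnN, t, ht, S, hS, hcard, hsq⟩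
    refine ⟨t, ht.trans ?_, S, hS, Finset.card_pos.1 (by omega), hsq⟩
    unfold loB
    apply Real.exp_le_exp.2
    refine mul_le_mul_of_nonneg_left (Real.sqrt_le_sqrt ?_) hc.le
    have hn0 : (0 : ℝ) < n := by
      have : 0 < n := by omega
      exact_mod_cast this
    have h3 : (3 : ℝ) ≤ n := by exact_mod_cast hn3
    have hnN' : (n : ℝ) ≤ N := by exact_mod_cast hnN
    have h1 : 1 ≤ Real.log n := by
      rw [Real.le_log_iff_exp_le hn0]
      exact (Real.exp_one_lt_d9.le.trans (by norm_num)).trans h3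
    have h2 : Real.log n ≤ Real.log N := Real.log_le_log hn0 hnN'
    have h4 : 0 ≤ Real.log (Real.log n) := Real.log_nonneg h1
    have h5 : Real.log (Real.log n) ≤ Real.log (Real.log N) :=
      Real.log_le_log (by linarith) h2
    exact mul_le_mul h2 h5 h4 (by linarith))
  have hsub : ((Finset.Icc 1 N).filter fun n => (∃ t : ℕ, (t : ℝ) ≤ loB c n ∧ HasSq n t) ∨
      ¬ ∃ t : ℕ, (t : ℝ) ≤ upB n ∧ HasSq n t)
      ⊆ ({1, 2} ∪ (Finset.Icc 1 N).filter bad) ∪
        (Finset.Icc 1 N).filter (fun n => ¬ ∃ t : ℕ, (t : ℝ) ≤ upB n ∧ HasSq n t) := by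
    intro n hn
    simp only [Finset.mem_filter, Finset.mem_Icc, Finset.mem_union, Finset.mem_insert,
      Finset.mem_singleton] at hn ⊢
    obtain ⟨⟨hn1, hnN⟩, hn | hn⟩ := hn
    · left
      by_cases h3 : 3 ≤ n
      · exact Or.inr ⟨⟨hn1, hnN⟩, h3, hnN, hn⟩
      · left; omega
    · exact Or.inr ⟨⟨hn1, hnN⟩, hn⟩
  have hcard := (Finset.card_le_card hsub).trans ((Finset.card_union_le _ _).trans
    (add_le_add_left (Finset.card_union_le _ _) _))
  have h12 : ({1, 2} : Finset ℕ).card ≤ 2 := Finset.card_le_two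
  have hcard' : (((Finset.Icc 1 N).filter fun n => (∃ t : ℕ, (t : ℝ) ≤ loB c n ∧ HasSq n t) ∨
      ¬ ∃ t : ℕ, (t : ℝ) ≤ upB n ∧ HasSq n t).card : ℝ) ≤
      2 + (((Finset.Icc 1 N).filter bad).card : ℝ) +
        (((Finset.Icc 1 N).filter
          (fun n => ¬ ∃ t : ℕ, (t : ℝ) ≤ upB n ∧ HasSq n t)).card : ℝ) := by
    have := hcard.trans (add_le_add_left (add_le_add_left h12 _) _)
    exact_mod_cast this
  have hfin : (N : ℝ) / Real.log N ^ 4
      = N / (2 * Real.log N ^ 4) + N / (2 * Real.log N ^ 4) := by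
    have : Real.log N ^ 4 ≠ 0 := by
      have h1 : 0 < Real.log N := Real.log_pos (by
        have : (3 : ℝ) ≤ N := by exact_mod_cast hN3
        linarith)
      positivity
    field_simp
    ring
  rw [hfin]
  refine hcard'.trans (add_le_add ?_ hup)
  refine le_trans (add_le_add_right ?_ 2) hev
  refine le_trans (le_of_eq ?_) hl
  congr!

end MP14ee70.TY
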